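import Pool.Agent.Lib.MP_d55432_al.SIX.Iface

/-!
# SIX: modules CHB and CHC (characteristic polynomial of a traceless `4 × 4` matrix)
-/

namespace Pool.Agent.Lib.MP_d55432_al.SIX.H30

open Matrix Pool.Agent.Lib.MP_d55432_al.SIX

theorem det4 {R : Type*} [CommRing R] (M : Matrix (Fin 4) (Fin 4) R) :
    M.det = M 0 0 * (M 1 1 * (M 2 2 * M 3 3 - M 2 3 * M 3 2) -
        M 1 2 * (M 2 1 * M 3 3 - M 2 3 * M 3 1) + M 1 3 * (M 2 1 * M 3 2 - M 2 2 * M 3 1)) -
      M 0 1 * (M 1 0 * (M 2 2 * M 3 3 - M 2 3 * M 3 2) -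
        M 1 2 * (M 2 0 * M 3 3 - M 2 3 * M 3 0) + M 1 3 * (M 2 0 * M 3 2 - M 2 2 * M 3 0)) +
      M 0 2 * (M 1 0 * (M 2 1 * M 3 3 - M 2 3 * M 3 1) -
        M 1 1 * (M 2 0 * M 3 3 - M 2 3 * M 3 0) + M 1 3 * (M 2 0 * M 3 1 - M 2 1 * M 3 0)) -
      M 0 3 * (M 1 0 * (M 2 1 * M 3 2 - M 2 2 * M 3 1) -
        M 1 1 * (M 2 0 * M 3 2 - M 2 2 * M 3 0) + M 1 2 * (M 2 0 * M 3 1 - M 2 1 * M 3 0)) := by
  rw [Matrix.det_succ_row_zero, Fin.sum_univ_four]
  simp only [Matrix.det_fin_three, Matrix.submatrix_apply]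
  simp [Fin.succAbove]
  ring

theorem chb (K : Type*) [Field K] [CharZero K] : CHB_S K := by
  intro X hX T
  have h33 : X 3 3 = -(X 0 0 + X 1 1 + X 2 2) := by
    rw [Matrix.trace, Fin.sum_univ_four] at hX
    simp only [Matrix.diag_apply] at hX
    linear_combination hX
  have h4 : X * X * X * X = (X * X) * (X * X) := by simp only [Matrix.mul_assoc]
  rw [h4, det4]
  simp only [Matrix.sub_apply, Matrix.smul_apply, Matrix.one_apply, smul_eq_mul, Matrix.trace,
    Matrix.diag_apply, Fin.sum_univ_four, Matrix.mul_apply, Fin.isValue, h33]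
  simp only [Fin.isValue, Fin.reduceEq, if_true, if_false, mul_one, mul_zero, zero_sub]
  generalize X 0 0 = a00
  generalize X 0 1 = a01
  generalize X 0 2 = a02
  generalize X 0 3 = a03
  generalize X 1 0 = a10
  generalize X 1 1 = a11
  generalize X 1 2 = a12
  generalize X 1 3 = a13
  generalize X 2 0 = a20
  generalize X 2 1 = a21
  generalize X 2 2 = a22
  generalize X 2 3 = a23
  generalize X 3 0 = a30
  generalize X 3 1 = a31
  generalize X 3 2 = a32
  ring

theorem chc (K : Type*) [Field K] [CharZero K] : CHC_S K := by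
  intro X hX
  have h1 : X.charpoly = Polynomial.X ^ 4 - Polynomial.C ((X * X).trace / 2) * Polynomial.X ^ 2 -
      Polynomial.C ((X * X * X).trace / 3) * Polynomial.X +
      Polynomial.C ((X * X).trace ^ 2 / 8 - (X * X * X * X).trace / 4) := by
    apply Polynomial.funext
    intro T
    rw [Matrix.eval_charpoly]
    have h2 := chb K X hX T
    have h3 : Matrix.scalar (Fin 4) T = T • (1 : M4 K) := by
      ext i j
      simp [Matrix.scalar_apply, Matrix.one_apply, Matrix.diagonal_apply]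
    rw [h3, h2]
    simp
  have h2 := Matrix.aeval_self_charpoly X
  rw [h1] at h2
  simp only [map_add, map_sub, map_mul, map_pow, Polynomial.aeval_X, Polynomial.aeval_C,
    Matrix.algebraMap_eq_diagonal] at h2
  have hd : ∀ c : K, Matrix.diagonal (algebraMap K (Fin 4 → K) c) = c • (1 : M4 K) := by
    intro c
    ext i j
    simp [Matrix.one_apply, Matrix.diagonal_apply]
  simp only [hd, Matrix.smul_mul, Matrix.one_mul] at h2
  have h5 : X ^ 4 = X * X * X * X := by rw [pow_succ, pow_succ, pow_succ, pow_one]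
  rw [h5, pow_two] at h2
  rw [sub_smul, ← sub_eq_zero, ← h2]
  abel

end Pool.Agent.Lib.MP_d55432_al.SIX.H30
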